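import Pool.Agent.AT10.Stmts1
import Pool.Agent.Helper27_AT8.LFT

/-!
# Squad AT10, LF2: idempotents can be lifted under a given idempotent
-/

open scoped BigOperators

noncomputable section

namespace Pool.Agent.PP.T10.H56

open Pool.Agent.Helper51_AWC Pool.Agent.Helper79_WRA Pool.Agent.PP Pool.Agent.PP.KF
open Pool.Agent.PP.K9 Pool.Agent.PP.K9.H97 Pool.Agent.PP.H75 Pool.Agent.PP.T3 Pool.Agent.PP.T2
open Pool.Agent.PP.T5 Pool.Agent.PP.TB Pool.Agent.PP.T8.H27
open Pool.Agent.PP.T8 (rs pw fv rd Ip Rv)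

attribute [local instance] Ideal.Quotient.field

section gen

variable {F G : Type} [Field F] [Group G] [Finite G]

theorem mul_out (C : Subgroup G) {a b : G → F} (ha : ∀ g, g ∉ C → a g = 0)
    (hb : ∀ g, g ∉ C → b g = 0) : ∀ g, g ∉ C → mulF a b g = 0 := by
  intro g hg
  have := Fintype.ofFinite G
  unfold mulF
  rw [finsum_eq_sum_of_fintype]
  apply Finset.sum_eq_zero
  intro t _
  by_cases ht : t ∈ C
  · rw [hb, mul_zero]
    intro h
    apply hg
    have := C.mul_mem ht h
    rwa [mul_inv_cancel_left] at this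
  · rw [ha t ht, zero_mul]

theorem mul_iv (V : Subgroup G) {a b : G → F} (ha : ∀ v ∈ V, ∀ g, a (v * g * v⁻¹) = a g)
    (hb : ∀ v ∈ V, ∀ g, b (v * g * v⁻¹) = b g) :
    ∀ v ∈ V, ∀ g, mulF a b (v * g * v⁻¹) = mulF a b g := by
  intro v hv g
  have h := H17.mulF_comp (MulAut.conj v) a b
  have h1 : (fun y => a ((MulAut.conj v) y)) = a := funext fun y => ha v hv y
  have h2 : (fun y => b ((MulAut.conj v) y)) = b := funext fun y => hb v hv y
  rw [h1, h2] at h
  exact (congrFun h g).symm

theorem comm_aeval {R B : Type} [CommRing R] [Ring B] [Algebra R B] {a x : B} (h : Commute a x)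
    (p : Polynomial R) : Commute a (Polynomial.aeval x p) := by
  induction p using Polynomial.induction_on' with
  | add p q hp hq =>
    rw [map_add]
    exact hp.add_right hq
  | monomial n c =>
    rw [Polynomial.aeval_monomial]
    exact Commute.mul_right (Algebra.commutes c a).symm (h.pow_right n)

end gen

theorem lf2 : Lf2Stmt := by
  intro M hM G _ _ V C i hi hiC x hx hxC hxV hix hxi
  classical
  have := Fintype.ofFinite G
  -- a section of the residue map
  obtain ⟨s, hs0, hs⟩ : ∃ s : FF M → RM M, s 0 = 0 ∧ ∀ c, rrHom M (s c) = c := by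
    have h1 : ∀ c : FF M, ∃ z : RM M, rrHom M z = c := by
      intro c
      obtain ⟨z, hz, h⟩ := rr_surj c
      exact ⟨⟨z, hz⟩, h⟩
    choose s hs using h1
    refine ⟨fun c => if c = 0 then 0 else s c, if_pos rfl, fun c => ?_⟩
    by_cases hc : c = 0
    · simp only [hc, if_true, map_zero]
    · simp only [hc, if_false, hs]
  obtain ⟨X, hX⟩ : ∃ X : MonoidAlgebra (RM M) G,
      X = MonoidAlgebra.ofCoeff (Finsupp.equivFunOnFinite.symm fun g => s (x g)) := ⟨_, rfl⟩
  have hXc : ∀ g, X.coeff g = s (x g) := by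
    intro g
    rw [hX]
    rfl
  obtain ⟨I, hI⟩ : ∃ I : MonoidAlgebra (RM M) G,
      I = MonoidAlgebra.ofCoeff (Finsupp.equivFunOnFinite.symm fun g => (⟨i g, hi.rm g⟩ : RM M)) :=
    ⟨_, rfl⟩
  have hIc : ∀ g, I.coeff g = (⟨i g, hi.rm g⟩ : RM M) := by
    intro g
    rw [hI]
    rfl
  have hfin : Module.Finite (RM M) (MonoidAlgebra (RM M) G) := by
    let E : (G → RM M) ≃ₗ[RM M] MonoidAlgebra (RM M) G :=
      { toFun := fun a => MonoidAlgebra.ofCoeff (Finsupp.equivFunOnFinite.symm a)
        invFun := fun y => fun h => y.coeff h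
        left_inv := fun _ => rfl
        right_inv := by
          intro y
          apply MonoidAlgebra.coeff_injective
          ext g
          rfl
        map_add' := by
          intro a b
          apply MonoidAlgebra.coeff_injective
          ext g
          rfl
        map_smul' := by
          intro c a
          apply MonoidAlgebra.coeff_injective
          ext g
          rfl }
    exact Module.Finite.equiv E
  have hψX : MonoidAlgebra.mapRingHom G (rrHom M) X = H20.toMA x := by
    apply MonoidAlgebra.coeff_injective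
    ext g
    rw [H20.toMA_coeff, MonoidAlgebra.coeff_mapRingHom]
    rw [hXc]
    exact hs _
  have hψI : MonoidAlgebra.mapRingHom G (rrHom M) I = H20.toMA (rd M i) := by
    apply MonoidAlgebra.coeff_injective
    ext g
    rw [H20.toMA_coeff, MonoidAlgebra.coeff_mapRingHom]
    rw [hIc]
    rfl
  have hιX : MonoidAlgebra.mapRingHom G (RM M).subtype X = H20.toMA fun g => (s (x g) : ℂ) := by
    apply MonoidAlgebra.coeff_injective
    ext g
    rw [H20.toMA_coeff, MonoidAlgebra.coeff_mapRingHom]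
    rw [hXc]
    rfl
  have hιI : MonoidAlgebra.mapRingHom G (RM M).subtype I = H20.toMA i := by
    apply MonoidAlgebra.coeff_injective
    ext g
    rw [H20.toMA_coeff, MonoidAlgebra.coeff_mapRingHom]
    rw [hIc]
    rfl
  have hinj : Function.Injective (MonoidAlgebra.mapRingHom G (RM M).subtype) := by
    intro a b hab
    apply MonoidAlgebra.coeff_injective
    ext g
    have h1 := congrArg (fun z => z.coeff g) hab
    simp only [MonoidAlgebra.coeff_mapRingHom] at h1
    exact h1
  have hII : I * I = I := by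
    apply hinj
    rw [map_mul, hιI, ← H20.toMA_mulF, hi.id]
  obtain ⟨Y, hY⟩ : ∃ Y, Y = I * X * I := ⟨_, rfl⟩
  have hIY : I * Y = Y := by rw [hY, ← mul_assoc, ← mul_assoc, hII]
  have hYI : Y * I = Y := by rw [hY, mul_assoc, hII]
  have hψY : MonoidAlgebra.mapRingHom G (rrHom M) Y = H20.toMA x := by
    rw [hY, map_mul, map_mul, hψX, hψI, ← H20.toMA_mulF, hix, ← H20.toMA_mulF, hxi]
  have hιY : MonoidAlgebra.mapRingHom G (RM M).subtype Y =
      H20.toMA (mulF (mulF i fun g => (s (x g) : ℂ)) i) := by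
    rw [hY, map_mul, map_mul, hιX, hιI, ← H20.toMA_mulF, ← H20.toMA_mulF]
  obtain ⟨f, hfm, hf⟩ : IsIntegral (RM M) Y := IsIntegral.of_finite (RM M) Y
  obtain ⟨r, hr⟩ := splits hfm
  obtain ⟨p, hp1, hp2⟩ := gen (rrHom M) (MonoidAlgebra.mapRingHom G (rrHom M))
    (MonoidAlgebra.mapRingHom_comp_algebraMap (rrHom M)).symm
    (fun a ha => by
      obtain ⟨h1, h2⟩ := inv_RM a.2 ha
      exact IsUnit.of_mul_eq_one ⟨_, h1⟩ (Subtype.ext (mul_inv_cancel₀ h2)))
    Y (by rw [hψY, ← H20.toMA_mulF, hx]) r (by rw [← hr]; exact hf)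
  have hmap : MonoidAlgebra.mapRingHom G (RM M).subtype (Polynomial.aeval Y p) =
      Polynomial.aeval (H20.toMA (mulF (mulF i fun g => (s (x g) : ℂ)) i))
        (p.map (RM M).subtype) := by
    rw [← hιY]
    exact Polynomial.map_aeval_eq_aeval_map
      (MonoidAlgebra.mapRingHom_comp_algebraMap (RM M).subtype).symm p Y
  have hsC : ∀ g, g ∉ C → (s (x g) : ℂ) = 0 := fun g hg => by
    rw [hxC g hg, hs0]; rfl
  have hsV : ∀ v ∈ V, ∀ g, (s (x (v * g * v⁻¹)) : ℂ) = s (x g) := fun v hv g => by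
    rw [hxV v hv g]
  obtain ⟨y, hy, hyC, hyV⟩ := poly_inv V C (mulF (mulF i fun g => (s (x g) : ℂ)) i)
    (mul_out C (mul_out C hiC hsC) hiC) (mul_iv V (mul_iv V hi.iv hsV) hi.iv)
    (p.map (RM M).subtype)
  obtain ⟨e, he⟩ : ∃ e, e = Polynomial.aeval Y p := ⟨_, rfl⟩
  rw [← he] at hp1 hp2 hmap
  have hιe : H20.toMA y = MonoidAlgebra.mapRingHom G (RM M).subtype e := by
    rw [hmap, hy]
  have hcomm : I * e = e * I := by
    rw [he]
    exact comm_aeval (by rw [Commute, SemiconjBy, hIY, hYI]) p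
  have hιm : H20.toMA (mulF i y) = MonoidAlgebra.mapRingHom G (RM M).subtype (I * e) := by
    rw [H20.toMA_mulF, map_mul, hιI, hιe]
  have hyc : ∀ g, mulF i y g = ((I * e).coeff g : ℂ) := by
    intro g
    rw [← H20.toMA_coeff (mulF i y) g, hιm, MonoidAlgebra.coeff_mapRingHom]
    rfl
  refine ⟨mulF i y, ⟨fun g => ?_, ?_, mul_iv V hi.iv hyV⟩, mul_out C hiC hyC, ?_, ?_, ?_⟩
  · rw [hyc]
    exact SetLike.coe_mem _
  · apply H20.toMA_injective
    rw [H20.toMA_mulF (mulF i y), hιm, ← map_mul]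
    congr 1
    calc I * e * (I * e) = I * (e * I) * e := by simp only [mul_assoc]
      _ = (I * I) * (e * e) := by rw [← hcomm]; simp only [mul_assoc]
      _ = I * e := by rw [hII, hp1]
  · funext g
    show rr M (mulF i y g) = x g
    rw [hyc]
    have h1 : MonoidAlgebra.mapRingHom G (rrHom M) (I * e) = H20.toMA x := by
      rw [map_mul, hp2, hψY, hψI, ← H20.toMA_mulF, hix]
    have h2 := congrArg (fun z => z.coeff g) h1
    simp only [MonoidAlgebra.coeff_mapRingHom] at h2
    exact h2
  · apply H20.toMA_injective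
    rw [H20.toMA_mulF i, hιm, ← hιI, ← map_mul]
    congr 1
    rw [← mul_assoc, hII]
  · apply H20.toMA_injective
    rw [H20.toMA_mulF _ i, hιm, ← hιI, ← map_mul]
    congr 1
    rw [mul_assoc, ← hcomm, ← mul_assoc, hII]

end Pool.Agent.PP.T10.H56
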